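import Pool.Agent.U540.HC.Asm3
import Pool.Agent.U15.HC.HANF
import Pool.Agent.U433.HC.GRID
import Pool.Agent.U263.HC.GADGET

/-!
# Finite-domain CSPs in hereditary first-order logic satisfy the tractability criterion

If `B` is a finite relational structure and `CSP(B)` is definable in hereditary first-order logic,
then there is no minion homomorphism from the polymorphisms of `B` to the projections, i.e. `B` lies
on the tractable side of the dichotomy theorem for finite-domain CSPs (Bulatov, Zhuk).  No
complexity-theoretic assumption is used.

Sketch of the proof.  Let `φ` define `CSP(B)` and suppose there is a minion homomorphism to the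
projections.  For `A ⊆ {0,...,2^m-1}` there is a 3-SAT instance on a grid with `m` rows: a left
part which excludes exactly the strings in `A`, a channel of constant width, a right part which
excludes exactly the strings not in `A`.  It is unsatisfiable, and the minion homomorphism turns it
into a finite structure which has no homomorphism to `B`, of bounded degree up to `|B|` hub
elements.  So it has a substructure `M_A` in which `φ` fails.  There are `2^(2^m)` sets `A`, but
only `2^(O(m))` possibilities for the trace of `M_A` on the channel and for the thresholded
numbers of local types on the right of the channel; so two sets `A`, `A'` with the same data exist,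
say `A'` is not contained in `A`.  Join the left part of `M_A` and the right part of `M_{A'}`.  By
Hanf's theorem `φ` still fails, but the joined structure is a substructure of the structure of the
satisfiable instance which excludes `A` on the left and the complement of `A'` on the right, which
is in `CSP(B)`: a contradiction.
-/

set_option autoImplicit false

namespace Pool.Agent.Results.MP_46fb1e_lc.HereditaryCsp

open FirstOrder FirstOrder.Language

/-- Let `L` be a relational language, `B` a finite nonempty `L`-structure and `φ` a first-order
sentence such that a finite nonempty `L`-structure `A` has a homomorphism to `B` if and only if all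
nonempty (induced) substructures of `A` satisfy `φ`, that is `CSP(B) = HER(φ)`.  Then there is no
minion homomorphism from the polymorphisms of `B` (of arity at least one) to the projections:
there is no map `ξ` which assigns to every polymorphism `f : B ^ (n + 1) → B` one of its `n + 1`
coordinates such that `ξ g = σ (ξ f)` whenever `g (y) = f (y ∘ σ)` is the minor of `f` by `σ`. -/
theorem result (L : FirstOrder.Language.{0, 0}) [L.IsRelational] (B : Type) [Finite B] [Nonempty B]
    [L.Structure B] (φ : L.Sentence)
    (hφ : ∀ (A : Type) [Finite A] [Nonempty A] [L.Structure A],
      Nonempty (A →[L] B) ↔ ∀ S : L.Substructure A, Nonempty S → Sentence.Realize S φ) :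
    ¬ ∃ ξ : ∀ n : ℕ, {f : (Fin (n + 1) → B) → B // ∀ {k : ℕ} (R : L.Relations k)
          (x : Fin k → Fin (n + 1) → B),
          (∀ i, Structure.RelMap R (fun j => x j i)) → Structure.RelMap R (fun j => f (x j))} →
        Fin (n + 1),
      ∀ (n m : ℕ) (σ : Fin (n + 1) → Fin (m + 1)) (f) (g),
        (∀ y : Fin (m + 1) → B, g.1 y = f.1 (y ∘ σ)) → ξ m g = σ (ξ n f) := by
  intro h
  exact Pool.Agent.U540.HC.goal_of Pool.Agent.U15.HC.t_HANF Pool.Agent.U433.HC.t_GRID
    Pool.Agent.U263.HC.t_GADGET L B φ hφ h

end Pool.Agent.Results.MP_46fb1e_lc.HereditaryCsp
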